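import Pool.Agent.H180.NS.Stm

/-!
# The density of the characteristics
-/

set_option autoImplicit false

namespace Pool.Agent.H180.MO

open Filter Topology

/-- the units of odd order of a cyclic group of even order `2 ^ t * w`, `w` odd -/
lemma card_odd_units {q t w : ℕ} [Fact q.Prime] (hw : Odd w) (h : q - 1 = 2 ^ t * w) :
    Nat.card {u : (ZMod q)ˣ // Odd (orderOf u)} = w := by
  have h1 : Nat.card (powMonoidHom w : (ZMod q)ˣ →* (ZMod q)ˣ).ker = w := by
    rw [IsCyclic.card_powMonoidHom_ker, Nat.card_eq_fintype_card, ZMod.card_units_eq_totient,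
      Nat.totient_prime Fact.out, h, Nat.gcd_comm, Nat.gcd_mul_left_right]
  rw [← h1]
  refine Nat.card_congr (Equiv.subtypeEquivRight fun u => ?_)
  rw [MonoidHom.mem_ker, powMonoidHom_apply]
  constructor
  · intro hu
    apply orderOf_dvd_iff_pow_eq_one.mp
    have h2 : orderOf u ∣ 2 ^ t * w := by
      rw [← h, ← Nat.totient_prime (p := q) Fact.out, ← ZMod.card_units_eq_totient]
      exact orderOf_dvd_card
    exact Nat.Coprime.dvd_of_dvd_mul_left
      (Nat.Coprime.pow_right t (Nat.coprime_two_right.mpr hu)) h2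
  · exact fun hu => Odd.of_dvd_nat hw (orderOf_dvd_of_pow_eq_one hu)

lemma unit_of_odd {q : ℕ} (y : ZMod q) (h : Odd (orderOf y)) : IsUnit y := by
  have h1 : y ^ orderOf y = 1 := pow_orderOf_eq_one y
  have h2 : orderOf y ≠ 0 := fun h0 => by rw [h0] at h; exact absurd h (by decide)
  exact IsUnit.of_pow_eq_one h1 h2

lemma card_odd {q t w : ℕ} [Fact q.Prime] (hw : Odd w) (h : q - 1 = 2 ^ t * w) :
    Nat.card {y : ZMod q // Odd (orderOf y)} = w := by
  rw [← card_odd_units hw h]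
  symm
  apply Nat.card_congr
  refine Equiv.ofBijective (fun u => ⟨(u.1 : ZMod q), by rw [orderOf_units]; exact u.2⟩) ⟨?_, ?_⟩
  · rintro ⟨u, hu⟩ ⟨v, hv⟩ huv
    have := congrArg Subtype.val huv
    exact Subtype.ext (Units.ext this)
  · rintro ⟨y, hy⟩
    obtain ⟨u, rfl⟩ := unit_of_odd y hy
    exact ⟨⟨u, by rw [← orderOf_units]; exact hy⟩, rfl⟩

lemma neg_iff {p : ℕ} [Fact p.Prime] (hp2 : p ≠ 2) (u : (ZMod p)ˣ) :
    (∃ j : ℕ, ((u : ZMod p)) ^ j = -1) ↔ ¬ Odd (orderOf u) := by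
  have h1 : (1 : ZMod p) ≠ -1 := by
    intro h
    have h4 : ((2 : ℕ) : ZMod p) = 0 := by push_cast; linear_combination h
    rw [ZMod.natCast_eq_zero_iff] at h4
    exact hp2 ((Nat.prime_dvd_prime_iff_eq Fact.out Nat.prime_two).mp h4)
  constructor
  · rintro ⟨j, hj⟩ ho
    have h2 : ((u : ZMod p) ^ j) ^ orderOf u = 1 := by
      rw [← pow_mul, mul_comm, pow_mul]
      have : (u : ZMod p) ^ orderOf u = 1 := by
        rw [← Units.val_pow_eq_pow_val, pow_orderOf_eq_one, Units.val_one]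
      rw [this, one_pow]
    rw [hj, ho.neg_one_pow] at h2
    exact h1 h2.symm
  · intro ho
    rw [Nat.not_odd_iff_even] at ho
    obtain ⟨k, hk⟩ := ho
    refine ⟨k, ?_⟩
    have h2 : (u : ZMod p) ^ k * (u : ZMod p) ^ k = 1 := by
      rw [← pow_add, ← hk, ← Units.val_pow_eq_pow_val, pow_orderOf_eq_one, Units.val_one]
    rcases mul_self_eq_one_iff.mp h2 with h3 | h3
    · exfalso
      have h4 : u ^ k = 1 := by
        apply Units.ext
        rw [Units.val_pow_eq_pow_val, h3, Units.val_one]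
      have h5 := Nat.le_of_dvd (by
        by_contra h0
        have : k = 0 := by omega
        rw [this] at hk
        have := orderOf_pos u
        omega) (orderOf_dvd_of_pow_eq_one h4)
      have := orderOf_pos u
      omega
    · exact h3

lemma card_neg {p s v : ℕ} [Fact p.Prime] (hp2 : p ≠ 2) (hv : Odd v) (h : p - 1 = 2 ^ s * v) :
    Nat.card {y : ZMod p // ∃ j : ℕ, y ^ j = -1} = (p - 1) - v := by
  have hp0 : 0 < p := (Fact.out : p.Prime).pos
  have hp1 := (Fact.out : p.Prime).one_lt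
  have e1 : Nat.card {y : ZMod p // ∃ j : ℕ, y ^ j = -1} =
      Nat.card {u : (ZMod p)ˣ // ¬ Odd (orderOf u)} := by
    symm
    apply Nat.card_congr
    refine Equiv.ofBijective (fun u => ⟨(u.1 : ZMod p), (neg_iff hp2 u.1).mpr u.2⟩) ⟨?_, ?_⟩
    · rintro ⟨u, hu⟩ ⟨w, hw⟩ huw
      have := congrArg Subtype.val huw
      exact Subtype.ext (Units.ext this)
    · rintro ⟨y, hy⟩
      have hyu : IsUnit y := by
        obtain ⟨j, hj⟩ := hy
        rw [isUnit_iff_ne_zero]
        rintro rfl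
        rcases Nat.eq_zero_or_pos j with rfl | hj0
        · rw [pow_zero] at hj
          have h4 : ((2 : ℕ) : ZMod p) = 0 := by push_cast; linear_combination hj
          rw [ZMod.natCast_eq_zero_iff] at h4
          exact hp2 ((Nat.prime_dvd_prime_iff_eq Fact.out Nat.prime_two).mp h4)
        · rw [zero_pow hj0.ne'] at hj
          exact one_ne_zero (neg_eq_zero.mp hj.symm)
      obtain ⟨u, rfl⟩ := hyu
      exact ⟨⟨u, (neg_iff hp2 u).mp hy⟩, rfl⟩
  have e2 := Nat.card_congr (Equiv.sumCompl fun u : (ZMod p)ˣ => Odd (orderOf u))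
  rw [Nat.card_sum, card_odd_units hv h, Nat.card_eq_fintype_card (α := (ZMod p)ˣ),
    ZMod.card_units_eq_totient, Nat.totient_prime Fact.out] at e2
  rw [e1]
  omega

/-- the density -/
theorem dens (ap : NS.S_AP) {p q : ℕ} (hp : p.Prime) (hq : q.Prime) (hp2 : p ≠ 2) (hpq : p ≠ q) :
    Tendsto (fun N : ℕ => (Nat.card {l : ℕ // l ≤ N ∧ l.Prime ∧
        (∃ j : ℕ, (l : ZMod p) ^ j = -1) ∧ Odd (orderOf (l : ZMod q))} : ℝ) /
      (Nat.primeCounting N : ℝ)) atTop
      (𝓝 ((1 - 1 / 2 ^ padicValNat 2 (p - 1)) * (1 / 2 ^ padicValNat 2 (q - 1)))) := by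
  classical
  have : Fact p.Prime := ⟨hp⟩
  have : Fact q.Prime := ⟨hq⟩
  have hpq0 : NeZero (p * q) := ⟨Nat.mul_ne_zero hp.ne_zero hq.ne_zero⟩
  have hcop : p.Coprime q := (Nat.coprime_primes hp hq).mpr hpq
  have hp1 := hp.one_lt
  have hq1 := hq.one_lt
  set s := padicValNat 2 (p - 1) with hs
  set t := padicValNat 2 (q - 1) with ht
  obtain ⟨v, hv⟩ : 2 ^ s ∣ p - 1 := pow_padicValNat_dvd
  obtain ⟨w, hw⟩ : 2 ^ t ∣ q - 1 := pow_padicValNat_dvd
  have hvo : Odd v := by
    rw [← Nat.not_even_iff_odd, even_iff_two_dvd]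
    intro h
    have h1 : 2 ^ (s + 1) ∣ p - 1 := by rw [hv, pow_succ]; exact Nat.mul_dvd_mul_left _ h
    exact pow_succ_padicValNat_not_dvd (by omega) h1
  have hwo : Odd w := by
    rw [← Nat.not_even_iff_odd, even_iff_two_dvd]
    intro h
    have h1 : 2 ^ (t + 1) ∣ q - 1 := by rw [hw, pow_succ]; exact Nat.mul_dvd_mul_left _ h
    exact pow_succ_padicValNat_not_dvd (by omega) h1
  set φ : ZMod (p * q) →+* ZMod p := ZMod.castHom (Dvd.intro _ rfl) (ZMod p) with hφ
  set φ' : ZMod (p * q) →+* ZMod q := ZMod.castHom (Dvd.intro_left _ rfl) (ZMod q) with hφ'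
  set R : Finset (ZMod (p * q)) := Finset.univ.filter fun r =>
    (∃ j : ℕ, (φ r) ^ j = -1) ∧ Odd (orderOf (φ' r)) with hR
  have hbij : Function.Bijective (fun r : ZMod (p * q) => (φ r, φ' r)) := by
    rw [Fintype.bijective_iff_injective_and_card]
    constructor
    · intro r r' h
      have h1 : φ r = φ r' := congrArg Prod.fst h
      have h2 : φ' r = φ' r' := congrArg Prod.snd h
      rw [← sub_eq_zero] at h1 h2 ⊢
      rw [← map_sub] at h1 h2
      rw [← ZMod.natCast_zmod_val (r - r')] at h1 h2 ⊢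
      rw [map_natCast, ZMod.natCast_eq_zero_iff] at h1 h2
      rw [ZMod.natCast_eq_zero_iff]
      exact hcop.mul_dvd_of_dvd_of_dvd h1 h2
    · rw [Fintype.card_prod, ZMod.card, ZMod.card, ZMod.card]
  have hRu : ∀ r ∈ R, IsUnit r := by
    intro r hr
    rw [hR, Finset.mem_filter] at hr
    obtain ⟨_, ⟨j, hj⟩, ho⟩ := hr
    have h1 : φ (r ^ (2 * j * orderOf (φ' r))) = φ 1 := by
      rw [map_pow, map_one, mul_assoc, mul_comm 2, mul_assoc, pow_mul, hj, mul_comm, pow_mul]
      norm_num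
    have h2 : φ' (r ^ (2 * j * orderOf (φ' r))) = φ' 1 := by
      rw [map_pow, map_one, mul_comm (2 * j), pow_mul, pow_orderOf_eq_one, one_pow]
    have h3 : r ^ (2 * j * orderOf (φ' r)) = 1 := hbij.1 (Prod.ext h1 h2)
    have hj0 : j ≠ 0 := by
      rintro rfl
      rw [pow_zero] at hj
      have h4 : ((2 : ℕ) : ZMod p) = 0 := by push_cast; linear_combination hj
      rw [ZMod.natCast_eq_zero_iff] at h4
      exact hp2 ((Nat.prime_dvd_prime_iff_eq Fact.out Nat.prime_two).mp h4)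
    have ho0 : orderOf (φ' r) ≠ 0 := fun h0 => by rw [h0] at ho; exact absurd ho (by decide)
    exact IsUnit.of_pow_eq_one h3 (by positivity)
  have hRc : R.card = ((p - 1) - v) * w := by
    rw [← card_neg hp2 hvo hv, ← card_odd hwo hw, ← Nat.card_prod, ← Nat.card_eq_finsetCard]
    apply Nat.card_congr
    refine Equiv.ofBijective (fun r : R => (⟨φ r.1, (Finset.mem_filter.mp r.2).2.1⟩,
      ⟨φ' r.1, (Finset.mem_filter.mp r.2).2.2⟩)) ⟨?_, ?_⟩
    · rintro ⟨r, hr⟩ ⟨r', hr'⟩ h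
      have h1 : φ r = φ r' := congrArg (fun x => (Prod.fst x).1) h
      have h2 : φ' r = φ' r' := congrArg (fun x => (Prod.snd x).1) h
      exact Subtype.ext (hbij.1 (Prod.ext h1 h2))
    · rintro ⟨⟨x, hx⟩, ⟨y, hy⟩⟩
      obtain ⟨r, hr⟩ := hbij.2 (x, y)
      have h1 : φ r = x := congrArg Prod.fst hr
      have h2 : φ' r = y := congrArg Prod.snd hr
      refine ⟨⟨r, Finset.mem_filter.mpr ⟨Finset.mem_univ _, by rw [h1]; exact hx,
        by rw [h2]; exact hy⟩⟩, ?_⟩
      exact Prod.ext (Subtype.ext h1) (Subtype.ext h2)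
  have h := ap (p * q) R hRu
  have hlim : (R.card : ℝ) / (Nat.totient (p * q) : ℝ) =
      (1 - 1 / 2 ^ s) * (1 / 2 ^ t) := by
    rw [hRc, Nat.totient_mul hcop, Nat.totient_prime hp, Nat.totient_prime hq, hw]
    have hv2 : v ≤ p - 1 := by rw [hv]; exact Nat.le_mul_of_pos_left _ (by positivity)
    have hp3 : (0 : ℝ) < ((p - 1 : ℕ) : ℝ) := by exact_mod_cast (by omega : 0 < p - 1)
    have hw0 : (0 : ℝ) < (w : ℝ) := by exact_mod_cast hwo.pos
    have hv3 : ((p - 1 : ℕ) : ℝ) = 2 ^ s * (v : ℝ) := by rw [hv]; push_cast; ring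
    have hv0 : (0 : ℝ) < (v : ℝ) := by exact_mod_cast hvo.pos
    rw [Nat.cast_mul, Nat.cast_mul, Nat.cast_sub hv2, hv3]
    push_cast
    field_simp
  rw [hlim] at h
  refine h.congr fun N => ?_
  congr 2
  apply Nat.card_congr
  refine Equiv.subtypeEquivRight fun l => ?_
  rw [hR, Finset.mem_filter, map_natCast, map_natCast]
  simp

end Pool.Agent.H180.MO
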