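import Pool.Agent.H916U.Main

/-!
# Tate characters of degree `p ^ a * q ^ b` in characteristic `l`, where `-1` is a power of `l` modulo
`p ^ a` and `l` has odd order modulo `q ^ b`
-/

set_option autoImplicit false

namespace Pool.Agent.H180.MO

open Finset Pool.Agent.H916R2 Pool.Agent.H916T Pool.Agent.H916U

/-- the hypotheses on the prime `l` -/
structure Hyp (p q a b l : ℕ) : Prop where
  neg : ∃ j : ℕ, (l : ZMod (p ^ a)) ^ j = -1
  odd : Odd (orderOf (l : ZMod (q ^ b)))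
  pq : ∃ i j : ℕ, (p : ZMod (q ^ b)) ^ i * (l : ZMod (q ^ b)) ^ j = -1

/-- odd distributions invariant under `l` -/
structure ODI {m : ℕ} (l : ℕ) {Q : Type} [AddCommGroup Q] (c : ZMod m → Q) : Prop where
  od : OD c
  inv : ∀ x, c ((l : ZMod m) * x) = c x

lemma ODI.pow {m l : ℕ} {Q : Type} [AddCommGroup Q] {c : ZMod m → Q} (h : ODI l c) (i : ℕ)
    (x : ZMod m) : c ((l : ZMod m) ^ i * x) = c x := pow_invariant h.inv i x

section

variable {p q a b l m : ℕ}

/-- multiplication by `v` kills exactly the multiples of `u` -/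
lemma mul_eq_zero_iff {u v m : ℕ} [NeZero m] (hm : m = u * v) (hv : 0 < v) (x : ZMod m) :
    (v : ZMod m) * x = 0 ↔ u ∣ x.val := by
  conv_lhs => rw [← ZMod.natCast_zmod_val x, ← Nat.cast_mul, ZMod.natCast_eq_zero_iff]
  generalize x.val = k
  rw [hm, mul_comm u v, Nat.mul_dvd_mul_iff_left hv]

lemma exists_sigma (hH : Hyp p q a b l) : ∃ i : ℕ, (l : ZMod (p ^ a)) ^ i = -1 ∧
    (l : ZMod (q ^ b)) ^ i = 1 := by
  obtain ⟨j, hj⟩ := hH.neg
  refine ⟨j * orderOf (l : ZMod (q ^ b)), ?_, ?_⟩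
  · rw [pow_mul, hj, hH.odd.neg_one_pow]
  · rw [mul_comm, pow_mul, pow_orderOf_eq_one, one_pow]

/-- elements killed by `v` are fixed by `l ^ i` -/
lemma fix_y {i : ℕ} (hi : (l : ZMod (q ^ b)) ^ i = 1) {z : ZMod m}
    (hz : ((q ^ b : ℕ) : ZMod m) * z = 0) : (l : ZMod m) ^ i * z = z := by
  obtain ⟨c, hc⟩ : ((q ^ b : ℕ) : ℤ) ∣ (l : ℤ) ^ i - 1 := by
    rw [← ZMod.intCast_zmod_eq_zero_iff_dvd]
    push_cast
    rw [hi]; ring
  have h2 := congrArg (Int.cast : ℤ → ZMod m) hc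
  push_cast at h2 hz
  linear_combination z * h2 + (c : ZMod m) * hz

/-- elements killed by `u` are negated by `l ^ i` -/
lemma neg_x {i : ℕ} (hi : (l : ZMod (p ^ a)) ^ i = -1) {z : ZMod m}
    (hz : ((p ^ a : ℕ) : ZMod m) * z = 0) : (l : ZMod m) ^ i * z = -z := by
  obtain ⟨c, hc⟩ : ((p ^ a : ℕ) : ℤ) ∣ (l : ℤ) ^ i + 1 := by
    rw [← ZMod.intCast_zmod_eq_zero_iff_dvd]
    push_cast
    rw [hi]; ring
  have h2 := congrArg (Int.cast : ℤ → ZMod m) hc
  push_cast at h2 hz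
  linear_combination z * h2 + (c : ZMod m) * hz

lemma sum_range_sym {Q : Type} [AddCommGroup Q] {f : ℕ → Q} (hodd : Odd p)
    (hf : ∀ i, 1 ≤ i → i < p → f (p - i) = f i) :
    ∑ i ∈ range p, f i = f 0 + 2 • ∑ i ∈ range ((p - 1) / 2), f (i + 1) := by
  obtain ⟨k, hk⟩ := hodd
  have hk2 : (p - 1) / 2 = k := by omega
  rw [hk2, hk, sum_range_succ', add_comm]
  congr 1
  rw [two_mul, sum_range_add, two_nsmul]
  congr 1
  rw [← sum_range_reflect]
  refine sum_congr rfl fun j hj => ?_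
  have hj' := mem_range.mp hj
  have h1 := hf (j + 1) (by omega) (by omega)
  rw [← h1]
  congr 1
  omega

/-- the relation for `p` at an element killed by `v` -/
lemma rel_p (hp : p.Prime) (hp2 : p ≠ 2) (ha : 0 < a) (hm : m = p ^ a * q ^ b)
    (hH : Hyp p q a b l) {Q : Type} [AddCommGroup Q] {c : ZMod m → Q} (hc : ODI l c) {z : ZMod m}
    (hz : ((q ^ b : ℕ) : ZMod m) * z = 0) :
    c ((p : ZMod m) * z) = c z + 2 • ∑ i ∈ range ((p - 1) / 2),
      c (z + ((i + 1 : ℕ) : ZMod m) * ((p ^ (a - 1) * q ^ b : ℕ) : ZMod m)) := by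
  have hd : p * (p ^ (a - 1) * q ^ b) = m := by
    rw [hm, ← mul_assoc, ← pow_succ', Nat.sub_add_cancel ha]
  have h1 := hc.od.odd p (p ^ (a - 1) * q ^ b) hp hp2 hd z
  rw [← h1, sum_range_sym (hp.odd_of_ne_two hp2)]
  · simp
  · intro i hi1 hi2
    obtain ⟨s, hs1, hs2⟩ := exists_sigma hH
    have h3 := fix_y (m := m) hs2 hz
    have hd0 : ((p ^ a : ℕ) : ZMod m) * ((p ^ (a - 1) * q ^ b : ℕ) : ZMod m) = 0 := by
      rw [← Nat.cast_mul, ZMod.natCast_eq_zero_iff, hm]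
      exact ⟨p ^ (a - 1), by ring⟩
    have h4 := neg_x (m := m) hs1 hd0
    rw [← hc.pow s (z + (i : ZMod m) * _)]
    congr 1
    have h5 : (p : ZMod m) * ((p ^ (a - 1) * q ^ b : ℕ) : ZMod m) = 0 := by
      rw [← Nat.cast_mul, hd]; simp
    rw [Nat.cast_sub hi2.le]
    linear_combination h5 - h3 - (i : ZMod m) * h4

/-- `x` has both components nonzero -/
lemma pp_of (hp : p.Prime) (hq : q.Prime) (hpq : p ≠ q) [NeZero m] (hm : m = p ^ a * q ^ b)
    {x : ZMod m} (h1 : ((p ^ a : ℕ) : ZMod m) * x ≠ 0) (h2 : ((q ^ b : ℕ) : ZMod m) * x ≠ 0) :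
    PP m x.val := by
  intro r hr hrm
  rw [hm] at hrm
  have hfac : ∀ {r s c d : ℕ}, r.Prime → s.Prime → r ≠ s →
      (r ^ c * s ^ d).factorization r = c := by
    intro r s c d hr hs hrs
    rw [Nat.factorization_mul (pow_ne_zero _ hr.ne_zero) (pow_ne_zero _ hs.ne_zero),
      hr.factorization_pow, hs.factorization_pow, Finsupp.add_apply, Finsupp.single_eq_same,
      Finsupp.single_eq_of_ne hrs, add_zero]
  rcases (hr.dvd_mul).mp hrm with h | h
  · have hrp : r = p := (Nat.prime_dvd_prime_iff_eq hr hp).mp (hr.dvd_of_dvd_pow h)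
    subst hrp
    have e : ordProj[r] m = r ^ a := by rw [hm, hfac hr hq hpq]
    rw [e, ← mul_eq_zero_iff hm (pow_pos hq.pos b)]
    exact h2
  · have hrp : r = q := (Nat.prime_dvd_prime_iff_eq hr hq).mp (hr.dvd_of_dvd_pow h)
    subst hrp
    have hm' : m = r ^ b * p ^ a := by rw [hm, mul_comm]
    have e : ordProj[r] m = r ^ b := by rw [hm', hfac hr hp hpq.symm]
    rw [e, ← mul_eq_zero_iff hm' (pow_pos hp.pos a)]
    exact h1

lemma odd_m (hp : p.Prime) (hq : q.Prime) (hp2 : p ≠ 2) (hq2 : q ≠ 2) (hm : m = p ^ a * q ^ b) :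
    ¬ 2 ∣ m := by
  rw [← even_iff_two_dvd, Nat.not_even_iff_odd, hm]
  exact ((hp.odd_of_ne_two hp2).pow).mul ((hq.odd_of_ne_two hq2).pow)

/-- elements with both components nonzero are combinations of units -/
lemma comb_pp (hp : p.Prime) (hq : q.Prime) (hp2 : p ≠ 2) (hq2 : q ≠ 2) (hpq : p ≠ q) [NeZero m]
    (hm : m = p ^ a * q ^ b) {x : ZMod m} (h1 : ((p ^ a : ℕ) : ZMod m) * x ≠ 0)
    (h2 : ((q ^ b : ℕ) : ZMod m) * x ≠ 0) :
    ∃ S : Multiset (ZMod m)ˣ, ∀ (Q : Type) [AddCommGroup Q] (c : ZMod m → Q), OD c →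
      c x = (S.map fun u : (ZMod m)ˣ => c (u : ZMod m)).sum := by
  obtain ⟨S, k, hk, hS⟩ := gen_units (NeZero.pos m) _ x.val le_rfl (pp_of hp hq hpq hm h1 h2)
  refine ⟨S, fun Q _ c hc => ?_⟩
  have h := hS Q c hc
  rw [ZMod.natCast_zmod_val, hk (odd_m hp hq hp2 hq2 hm), zero_smul, add_zero] at h
  exact h

lemma coprime_uv (hp : p.Prime) (hq : q.Prime) (hpq : p ≠ q) : (p ^ a).Coprime (q ^ b) :=
  Nat.Coprime.pow a b ((Nat.coprime_primes hp hq).mpr hpq)

/-- killed by `u` and by `v` is zero -/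
lemma zero_of (hp : p.Prime) (hq : q.Prime) (hpq : p ≠ q) {z : ZMod m}
    (h1 : ((p ^ a : ℕ) : ZMod m) * z = 0) (h2 : ((q ^ b : ℕ) : ZMod m) * z = 0) : z = 0 := by
  have hc := Nat.isCoprime_iff_coprime.mpr (coprime_uv (a := a) (b := b) hp hq hpq)
  obtain ⟨r, s, hrs⟩ := hc
  have h3 := congrArg (Int.cast : ℤ → ZMod m) hrs
  push_cast at h3 h1 h2
  linear_combination -z * h3 + (r : ZMod m) * h1 + (s : ZMod m) * h2

/-- the number of elements of a multiset of units modulo two -/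
lemma card_eq [NeZero m] (hm1 : 1 < m) (S : Multiset (ZMod m)ˣ) :
    (S.map fun u : (ZMod m)ˣ => (if (u : ZMod m) = 0 then (0 : ZMod 2) else 1)).sum =
      (Multiset.card S : ZMod 2) := by
  have : Fact (1 < m) := ⟨hm1⟩
  have h : (S.map fun u : (ZMod m)ˣ => (if (u : ZMod m) = 0 then (0 : ZMod 2) else 1)) =
      S.map fun _ => (1 : ZMod 2) := by
    apply Multiset.map_congr rfl
    intro u _
    rw [if_neg u.ne_zero]
  rw [h, Multiset.map_const', Multiset.sum_replicate]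
  simp

/-- one step: the sum in the relation for `p` is a combination of units -/
lemma step_p (hp : p.Prime) (hq : q.Prime) (hp2 : p ≠ 2) (hq2 : q ≠ 2) (hpq : p ≠ q) [NeZero m]
    (ha : 0 < a) (hm : m = p ^ a * q ^ b) (hH : Hyp p q a b l) {z : ZMod m} (hz0 : z ≠ 0)
    (hz : ((q ^ b : ℕ) : ZMod m) * z = 0) :
    ∃ S : Multiset (ZMod m)ˣ, (Multiset.card S : ZMod 2) = (((p - 1) / 2 : ℕ) : ZMod 2) ∧
      ∀ (Q : Type) [AddCommGroup Q] (c : ZMod m → Q), ODI l c →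
        c ((p : ZMod m) * z) = c z + 2 • (S.map fun u : (ZMod m)ˣ => c (u : ZMod m)).sum := by
  have hd : p * (p ^ (a - 1) * q ^ b) = m := by
    rw [hm, ← mul_assoc, ← pow_succ', Nat.sub_add_cancel ha]
  have hm1 : 1 < m := by
    rw [hm]
    have h1 : 1 < p ^ a := Nat.one_lt_pow ha.ne' hp.one_lt
    have h2 : 0 < q ^ b := pow_pos hq.pos b
    nlinarith
  have hne : ∀ i : ℕ, i ∈ range ((p - 1) / 2) →
      ((p ^ a : ℕ) : ZMod m) * (z + ((i + 1 : ℕ) : ZMod m) *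
        ((p ^ (a - 1) * q ^ b : ℕ) : ZMod m)) ≠ 0 := by
    intro i hi h
    apply hz0
    apply zero_of hp hq hpq (a := a) (b := b) _ hz
    have hd0 : ((p ^ a : ℕ) : ZMod m) * ((p ^ (a - 1) * q ^ b : ℕ) : ZMod m) = 0 := by
      rw [← Nat.cast_mul, ZMod.natCast_eq_zero_iff, hm]
      exact ⟨p ^ (a - 1), by ring⟩
    linear_combination h - ((i + 1 : ℕ) : ZMod m) * hd0
  have key : ∀ i : ℕ, i ∈ range ((p - 1) / 2) → ∃ S : Multiset (ZMod m)ˣ,
      ∀ (Q : Type) [AddCommGroup Q] (c : ZMod m → Q), OD c →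
      c (z + ((i + 1 : ℕ) : ZMod m) * ((p ^ (a - 1) * q ^ b : ℕ) : ZMod m)) =
        (S.map fun u : (ZMod m)ˣ => c (u : ZMod m)).sum := by
    intro i hi
    have hi' := mem_range.mp hi
    have hip : i + 1 < p := by have := hp.two_le; omega
    apply comb_pp hp hq hp2 hq2 hpq hm
    · exact hne i hi
    · intro h
      have h3 : ((q ^ b * ((i + 1) * (p ^ (a - 1) * q ^ b)) : ℕ) : ZMod m) = 0 := by
        push_cast at h hz ⊢
        linear_combination h - hz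
      rw [ZMod.natCast_eq_zero_iff, ← hd] at h3
      have h4 : p * (p ^ (a - 1) * q ^ b) ∣ (q ^ b * (i + 1)) * (p ^ (a - 1) * q ^ b) := by
        convert h3 using 1; ring
      have h5 : p ∣ q ^ b * (i + 1) :=
        Nat.dvd_of_mul_dvd_mul_right (by have := hp.pos; have := hq.pos; positivity) h4
      rcases (hp.dvd_mul).mp h5 with h6 | h6
      · exact hpq ((Nat.prime_dvd_prime_iff_eq hp hq).mp (hp.dvd_of_dvd_pow h6))
      · have := Nat.le_of_dvd (by omega) h6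
        omega
  choose! S hS using key
  refine ⟨∑ i ∈ range ((p - 1) / 2), S i, ?_, fun Q _ c hc => ?_⟩
  · rw [← card_eq hm1, map_sum_multiset (fun x : ZMod m => if x = 0 then (0 : ZMod 2) else 1)]
    have h1 : ∀ i ∈ range ((p - 1) / 2), ((S i).map fun u : (ZMod m)ˣ =>
        (if (u : ZMod m) = 0 then (0 : ZMod 2) else 1)).sum = 1 := by
      intro i hi
      have h2 := hS i hi (ZMod 2) (fun x : ZMod m => if x = 0 then (0 : ZMod 2) else 1) (by
        exact od_size)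
      rw [← h2, if_neg]
      intro h
      apply hne i hi
      rw [h, mul_zero]
    rw [sum_congr rfl h1, sum_const, card_range]
    simp
  · rw [rel_p hp hp2 ha hm hH hc hz, map_sum_multiset]
    congr 2
    exact sum_congr rfl fun i hi => hS i hi Q c hc.od

/-- along the orbit -/
lemma orbit (hp : p.Prime) (hq : q.Prime) (hp2 : p ≠ 2) (hq2 : q ≠ 2) (hpq : p ≠ q) [NeZero m]
    (ha : 0 < a) (hm : m = p ^ a * q ^ b) (hH : Hyp p q a b l) {z : ZMod m} (hz0 : z ≠ 0)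
    (hz : ((q ^ b : ℕ) : ZMod m) * z = 0) (i j : ℕ) :
    ∃ S : Multiset (ZMod m)ˣ, (Multiset.card S : ZMod 2) = ((i * ((p - 1) / 2) : ℕ) : ZMod 2) ∧
      ∀ (Q : Type) [AddCommGroup Q] (c : ZMod m → Q), ODI l c →
        c ((p : ZMod m) ^ i * (l : ZMod m) ^ j * z) =
          c z + 2 • (S.map fun u : (ZMod m)ˣ => c (u : ZMod m)).sum := by
  have hstep : ∀ i : ℕ, (p : ZMod m) ^ i * z ≠ 0 ∧
      ((q ^ b : ℕ) : ZMod m) * ((p : ZMod m) ^ i * z) = 0 := by
    intro i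
    have hy : ((q ^ b : ℕ) : ZMod m) * ((p : ZMod m) ^ i * z) = 0 := by
      linear_combination (p : ZMod m) ^ i * hz
    refine ⟨fun h => hz0 ?_, hy⟩
    have hc := Nat.isCoprime_iff_coprime.mpr (coprime_uv (a := i) (b := b) hp hq hpq)
    obtain ⟨r, s, hrs⟩ := hc
    have h3 := congrArg (Int.cast : ℤ → ZMod m) hrs
    push_cast at h3 h hz
    linear_combination -z * h3 + (r : ZMod m) * h + (s : ZMod m) * hz
  have h1 : ∃ S : Multiset (ZMod m)ˣ,
      (Multiset.card S : ZMod 2) = ((i * ((p - 1) / 2) : ℕ) : ZMod 2) ∧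
      ∀ (Q : Type) [AddCommGroup Q] (c : ZMod m → Q), ODI l c →
      c ((p : ZMod m) ^ i * z) = c z + 2 • (S.map fun u : (ZMod m)ˣ => c (u : ZMod m)).sum := by
    induction i with
    | zero => exact ⟨0, by simp, fun Q _ c _ => by simp⟩
    | succ i ih =>
      obtain ⟨S, hS0, hS⟩ := ih
      obtain ⟨T, hT0, hT⟩ := step_p hp hq hp2 hq2 hpq ha hm hH (hstep i).1 (hstep i).2
      refine ⟨S + T, ?_, fun Q _ c hc => ?_⟩
      · rw [Multiset.card_add, Nat.cast_add, hS0, hT0, ← Nat.cast_add]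
        congr 1; ring
      · rw [pow_succ', mul_assoc, hT Q c hc, hS Q c hc, Multiset.map_add, Multiset.sum_add,
          smul_add, add_assoc]
  obtain ⟨S, hS0, hS⟩ := h1
  refine ⟨S, hS0, fun Q _ c hc => ?_⟩
  rw [← hS Q c hc, ← hc.pow j ((p : ZMod m) ^ i * z)]
  congr 1
  ring

/-- elements killed by `q ^ b`: up to two-torsion combinations of units, with a constant parity -/
lemma y_type (hp : p.Prime) (hq : q.Prime) (hp2 : p ≠ 2) (hq2 : q ≠ 2) (hpq : p ≠ q) [NeZero m]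
    (ha : 0 < a) (hm : m = p ^ a * q ^ b) (hH : Hyp p q a b l) :
    ∃ ε : ZMod 2, ∀ z : ZMod m, z ≠ 0 → ((q ^ b : ℕ) : ZMod m) * z = 0 →
      ∃ S : Multiset (ZMod m)ˣ, (Multiset.card S : ZMod 2) = ε ∧
        ∀ (Q : Type) [AddCommGroup Q] (c : ZMod m → Q), ODI l c →
          2 • (c z - (S.map fun u : (ZMod m)ˣ => c (u : ZMod m)).sum) = 0 := by
  obtain ⟨i, j, hij⟩ := hH.pq
  refine ⟨((i * ((p - 1) / 2) : ℕ) : ZMod 2), fun z hz0 hz => ?_⟩
  obtain ⟨S, hS0, hS⟩ := orbit hp hq hp2 hq2 hpq ha hm hH hz0 hz i j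
  have h0 : (p : ZMod m) ^ i * (l : ZMod m) ^ j * z = -z := by
    obtain ⟨c, hc⟩ : ((q ^ b : ℕ) : ℤ) ∣ (p : ℤ) ^ i * (l : ℤ) ^ j + 1 := by
      rw [← ZMod.intCast_zmod_eq_zero_iff_dvd]
      push_cast
      rw [hij]; ring
    have h2 := congrArg (Int.cast : ℤ → ZMod m) hc
    push_cast at h2 hz
    linear_combination z * h2 + (c : ZMod m) * hz
  refine ⟨S.map fun u => -u, by rw [Multiset.card_map, hS0], fun Q _ c hc => ?_⟩
  have h1 := hS Q c hc
  rw [h0, hc.od.neg] at h1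
  have h4 : ((S.map fun u : (ZMod m)ˣ => -u).map fun u : (ZMod m)ˣ => c (u : ZMod m)).sum =
      - (S.map fun u : (ZMod m)ˣ => c (u : ZMod m)).sum := by
    rw [Multiset.map_map, ← Multiset.sum_map_neg]
    congr 1
    apply Multiset.map_congr rfl
    intro u _
    simp only [Function.comp_apply, Units.val_neg]
    rw [hc.od.neg]
  rw [h4, sub_neg_eq_add, smul_add, two_nsmul (c z)]
  calc c z + c z + 2 • (S.map fun u : (ZMod m)ˣ => c (u : ZMod m)).sum
      = c z + (c z + 2 • (S.map fun u : (ZMod m)ˣ => c (u : ZMod m)).sum) := by abel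
    _ = 0 := by rw [← h1]; abel

end

end Pool.Agent.H180.MO
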