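import Pool.Agent.H180.MO.Core
import Pool.Agent.H916Q.Assemble

/-!
# Parities of the numbers of the entries of a Tate character with a given support
-/

set_option autoImplicit false

namespace Pool.Agent.H180.MO

open Finset Pool.Agent.H916R2 Pool.Agent.H916T Pool.Agent.H916U

section

variable {p q a b l m : ℕ}

/-- the number of the entries not killed by `u` and not killed by `v`, modulo two -/
def mixed (u v : ℕ) {m : ℕ} (s : Multiset (ZMod m)) : ℕ :=
  s.countP fun x => (u : ZMod m) * x ≠ 0 ∧ (v : ZMod m) * x ≠ 0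

/-- decomposition of a multiset, torsion-free coefficients -/
lemma decomp (hp : p.Prime) (hq : q.Prime) (hp2 : p ≠ 2) (hq2 : q ≠ 2) (hpq : p ≠ q) [NeZero m]
    (ha : 0 < a) (hm : m = p ^ a * q ^ b) (hH : Hyp p q a b l) :
    ∃ ε : ZMod 2, ∀ s : Multiset (ZMod m), (0 : ZMod m) ∉ s → ∃ S : Multiset (ZMod m)ˣ,
      (Multiset.card S : ZMod 2) =
        (s.countP fun x => ((q ^ b : ℕ) : ZMod m) * x = 0 : ℕ) * ε +
          (mixed (p ^ a) (q ^ b) s : ZMod 2) ∧
      ∀ (Q : Type) [AddCommGroup Q] (c : ZMod m → Q), (∀ x : Q, 2 • x = 0 → x = 0) → ODI l c →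
        (s.map c).sum = (S.map fun u : (ZMod m)ˣ => c (u : ZMod m)).sum := by
  obtain ⟨ε, hε⟩ := y_type hp hq hp2 hq2 hpq ha hm hH
  obtain ⟨i, hi1, hi2⟩ := exists_sigma hH
  have hm1 : 1 < m := by
    rw [hm]
    have h1 : 1 < p ^ a := Nat.one_lt_pow ha.ne' hp.one_lt
    have h2 : 0 < q ^ b := pow_pos hq.pos b
    nlinarith
  refine ⟨ε, fun s => ?_⟩
  induction s using Multiset.induction_on with
  | empty => exact fun _ => ⟨0, by simp [mixed], fun Q _ c _ _ => by simp⟩
  | cons x s ih =>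
    intro h0
    obtain ⟨S, hS0, hS⟩ := ih fun h => h0 (Multiset.mem_cons_of_mem h)
    have hx : x ≠ 0 := fun h => h0 (by rw [h]; exact Multiset.mem_cons_self _ _)
    unfold mixed at hS0 ⊢
    by_cases h1 : ((p ^ a : ℕ) : ZMod m) * x = 0
    · have h2 : ¬ ((q ^ b : ℕ) : ZMod m) * x = 0 := fun h2 => hx (zero_of hp hq hpq h1 h2)
      refine ⟨S, ?_, fun Q _ c htf hc => ?_⟩
      · rw [Multiset.countP_cons, Multiset.countP_cons, if_neg h2, if_neg (fun h => h.1 h1),
          add_zero, add_zero]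
        exact hS0
      · rw [Multiset.map_cons, Multiset.sum_cons, hS Q c htf hc]
        have h3 : c x = 0 := by
          apply htf
          have h4 := hc.pow i x
          rw [neg_x hi1 h1, hc.od.neg] at h4
          rw [two_nsmul]
          nth_rewrite 1 [← h4]
          exact neg_add_cancel _
        rw [h3, zero_add]
    · by_cases h2 : ((q ^ b : ℕ) : ZMod m) * x = 0
      · obtain ⟨S2, hS20, hS2⟩ := hε x hx h2
        refine ⟨S + S2, ?_, fun Q _ c htf hc => ?_⟩
        · rw [Multiset.countP_cons, Multiset.countP_cons, if_pos h2, if_neg (fun h => h.2 h2),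
            add_zero, Multiset.card_add, Nat.cast_add, hS0, hS20]
          push_cast
          ring
        · have h3 := sub_eq_zero.mp (htf _ (hS2 Q c hc))
          rw [Multiset.map_cons, Multiset.sum_cons, hS Q c htf hc, h3, Multiset.map_add,
            Multiset.sum_add, add_comm]
      · obtain ⟨S2, hS2⟩ := comb_pp hp hq hp2 hq2 hpq hm h1 h2
        have hS20 : (Multiset.card S2 : ZMod 2) = 1 := by
          have h3 := hS2 (ZMod 2) (fun x : ZMod m => if x = 0 then (0 : ZMod 2) else 1)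
            (by exact od_size)
          rw [if_neg hx] at h3
          rw [← card_eq hm1, ← h3]
        refine ⟨S + S2, ?_, fun Q _ c htf hc => ?_⟩
        · rw [Multiset.countP_cons, Multiset.countP_cons, if_neg h2, if_pos ⟨h1, h2⟩,
            add_zero, Multiset.card_add, Nat.cast_add, hS0, hS20]
          push_cast
          ring
        · rw [Multiset.map_cons, Multiset.sum_cons, hS Q c htf hc, hS2 Q c hc.od,
            Multiset.map_add, Multiset.sum_add, add_comm]

/-- nonvanishing of the odd character sums -/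
lemma SS_ne (hp : p.Prime) (hq : q.Prime) (hp2 : p ≠ 2) (hq2 : q ≠ 2) (hpq : p ≠ q) [NeZero m]
    (ha : 0 < a) (hm : m = p ^ a * q ^ b) (hl : l.Coprime m) (hH : Hyp p q a b l)
    (χ : DirichletCharacter ℂ m) (hχ : χ.Odd) (hχl : χ (l : ZMod m) = 1) : SS χ 1 ≠ 0 := by
  intro h1
  obtain ⟨x, hx⟩ := exists_SS_ne_zero χ hχ
  obtain ⟨ε, hT⟩ := decomp hp hq hp2 hq2 hpq ha hm hH
  have hx0 : x ≠ 0 := by
    rintro rfl
    exact hx (od_SS χ).zero
  obtain ⟨S, _, hS⟩ := hT {x} (by simpa using hx0.symm)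
  have hinv : ODI l (SS χ) := by
    refine ⟨od_SS χ, fun y => ?_⟩
    have h2 := SS_unit χ (H916T.isUnit_p hl).unit y
    rw [IsUnit.unit_spec, hχl, inv_one, one_mul] at h2
    exact h2
  have h2 := hS ℂ (SS χ) (fun y hy => by
    rw [two_nsmul, ← two_mul] at hy
    simpa using hy) hinv
  rw [Multiset.map_singleton, Multiset.sum_singleton] at h2
  apply hx
  rw [h2]
  apply Multiset.sum_eq_zero
  intro y hy
  obtain ⟨u, _, rfl⟩ := Multiset.mem_map.mp hy
  have := SS_unit χ u 1
  rw [mul_one] at this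
  rw [this, h1, mul_zero]

/-- **Parity.** For a Tate character with an even number of entries killed by `q ^ b` the number of
the mixed entries is even. -/
theorem mixed_even (hp : p.Prime) (hq : q.Prime) (hp2 : p ≠ 2) (hq2 : q ≠ 2) (hpq : p ≠ q)
    [NeZero m] (ha : 0 < a) (hb : 0 < b) (hm : m = p ^ a * q ^ b) (hl : l.Coprime m)
    (hH : Hyp p q a b l) {s : Multiset (ZMod m)} (hs : IsTate l m s)
    (heven : Even (s.countP fun x => ((q ^ b : ℕ) : ZMod m) * x = 0)) :
    Even (mixed (p ^ a) (q ^ b) s) := by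
  obtain ⟨ε, hT⟩ := decomp hp hq hp2 hq2 hpq ha hm hH
  obtain ⟨S, hS1, hS2⟩ := hT s hs.1
  have hf0 := order_pos (m := m) hl
  -- `-1` is not a power of `l`
  have hno : ∀ j : ℕ, (l : ZMod m) ^ j ≠ -1 := by
    intro j hj
    have hdvd : q ^ b ∣ m := by rw [hm]; exact Dvd.intro_left _ rfl
    have h1 := congrArg (ZMod.castHom hdvd (ZMod (q ^ b))) hj
    rw [map_pow, map_natCast, map_neg, map_one] at h1
    have h2 : ((-1 : ZMod (q ^ b))) ^ orderOf (l : ZMod (q ^ b)) = 1 := by
      rw [← h1, ← pow_mul, mul_comm, pow_mul, pow_orderOf_eq_one, one_pow]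
    rw [hH.odd.neg_one_pow] at h2
    have h3 : ((2 : ℕ) : ZMod (q ^ b)) = 0 := by push_cast; linear_combination -h2
    rw [ZMod.natCast_eq_zero_iff] at h3
    have h4 := (dvd_pow_self q hb.ne').trans h3
    exact hq2 ((Nat.prime_dvd_prime_iff_eq hq Nat.prime_two).mp h4)
  -- `S` is balanced
  have hbal : ∀ u : (ZMod m)ˣ, (S.map fun v : (ZMod m)ˣ =>
      phi l (orderOf (l : ZMod m)) (u : ZMod m) (v : ZMod m)).sum = 0 := by
    apply balanced_of_saw' hl (pow_order l)
      (fun χ h1 h2 => SS_ne hp hq hp2 hq2 hpq ha hm hl hH χ h1 h2)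
    intro t
    have h1 := hS2 ℤ (fun x => W l ((t : ZMod m) * x)) (fun x hx => by
      rw [two_nsmul] at hx; omega)
      ⟨od_W hl t, fun x => by
        have : (t : ZMod m) * ((l : ZMod m) * x) = (l : ZMod m) * ((t : ZMod m) * x) := by ring
        simp only [this, W_mul]⟩
    rw [hs.W_sum hl t] at h1
    exact h1.symm
  have hcard : (Multiset.card S : ZMod 2) = 0 := by
    have h1 := balanced_sum hf0 (pow_order l) hno _ S rfl hbal (ZMod 2) (fun _ => 1)
      (fun _ => by decide) (fun _ => rfl)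
    rw [Multiset.map_const', Multiset.sum_replicate] at h1
    simpa using h1
  rw [hcard] at hS1
  have h2 : (((s.countP fun x => ((q ^ b : ℕ) : ZMod m) * x = 0 : ℕ)) : ZMod 2) = 0 :=
    (ZMod.natCast_eq_zero_iff _ _).mpr (even_iff_two_dvd.mp heven)
  rw [h2, zero_mul, zero_add] at hS1
  exact even_iff_two_dvd.mpr ((ZMod.natCast_eq_zero_iff _ _).mp hS1.symm)

end

end Pool.Agent.H180.MO
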