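import Pool.Agent.H180.MO.Fld
import Pool.Agent.H180.MO.Cnt

/-!
# The closure lemma and the main theorem
-/

set_option autoImplicit false

namespace Pool.Agent.H180.MO

open Pool.Agent.H916R2 Pool.Agent.H916T Filter Topology

/-- The closure properties of the family `A` of the characters of algebraic classes on the Fermat
varieties of all degrees prime to `l`, in characteristic `l`. -/
structure Adm (l : ℕ) (A : (m : ℕ) → Multiset (ZMod m) → Prop) : Prop where
  /-- pairs -/
  pair : ∀ m : ℕ, 0 < m → l.Coprime m → ∀ a : ZMod m, a ≠ 0 → A m {a, -a}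
  /-- Fermat surfaces -/
  surface : ∀ m : ℕ, 0 < m → l.Coprime m → ∀ s, SurfaceTate l m s → A m s
  /-- standard characters -/
  standard : ∀ m : ℕ, 0 < m → l.Coprime m → ∀ r : ℕ, r.Prime → r ∣ m →
    ∀ s, Standard r m s → A m s
  /-- union -/
  join : ∀ m : ℕ, 0 < m → l.Coprime m → ∀ s t, A m s → A m t → A m (s + t)
  /-- removal of a pair -/
  cancel : ∀ m : ℕ, 0 < m → l.Coprime m → ∀ a s, A m (a ::ₘ -a ::ₘ s) → A m s
  /-- descent along the map from the Fermat variety of degree `N * m` to that of degree `m` -/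
  descend : ∀ m N : ℕ, 0 < N * m → l.Coprime (N * m) → ∀ s : Multiset (ZMod m),
    A (N * m) (s.map fun a => ((N * a.val : ℕ) : ZMod (N * m))) → A m s

lemma Adm.gen {l : ℕ} {A : (m : ℕ) → Multiset (ZMod m) → Prop} (hA : Adm l A) {m : ℕ}
    (hm : 0 < m) (hlm : l.Coprime m) {s : Multiset (ZMod m)}
    (hs : H916T.Generated m (H916Z.ZBase l m) s) : A m s := by
  induction hs with
  | ofBase s hs =>
    rcases hs with hs | ⟨r, hr, hrm, hs⟩
    · exact hA.surface m hm hlm s hs
    · exact hA.standard m hm hlm r hr hrm s hs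
  | pair a ha => exact hA.pair m hm hlm a ha
  | join s t _ _ ihs iht => exact hA.join m hm hlm s t ihs iht
  | cancel a s _ ih => exact hA.cancel m hm hlm a s ih

lemma Adm.cancel_all {l : ℕ} {A : (m : ℕ) → Multiset (ZMod m) → Prop} (hA : Adm l A) {m : ℕ}
    (hm : 0 < m) (hlm : l.Coprime m) (t s : Multiset (ZMod m))
    (h : A m (t + t.map (fun a => -a) + s)) : A m s := by
  induction t using Multiset.induction_on with
  | empty => simpa using h
  | cons a t ih =>
    apply ih
    apply hA.cancel m hm hlm a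
    rw [Multiset.map_cons, Multiset.cons_add, Multiset.add_cons, Multiset.cons_add,
      Multiset.cons_add] at h
    exact h

section

variable {p q a b l m : ℕ}

/-- the number of the entries of `q`-power order -/
def cnt (q b : ℕ) {m : ℕ} (s : Multiset (ZMod m)) : ℕ :=
  s.countP fun x => ((q ^ b : ℕ) : ZMod m) * x = 0

theorem even_mem (hp : p.Prime) (hq : q.Prime) (hp2 : p ≠ 2) (hq2 : q ≠ 2) (hpq : p ≠ q)
    (ha : 0 < a) (hb : 0 < b) (hm : m = p ^ a * q ^ b) (hl : l.Prime)
    (hlm : l.Coprime m) (hH : Hyp p q a b l) {A : (m : ℕ) → Multiset (ZMod m) → Prop}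
    (hA : Adm l A) {s : Multiset (ZMod m)} (hs : IsTate l m s) (heven : Even (cnt q b s)) :
    A m s := by
  have hm0 : 0 < m := by rw [hm]; have := hp.pos; have := hq.pos; positivity
  by_cases hne : s = 0
  · have hm1 : 1 < m := by
      rw [hm]
      have h1 : 1 < p ^ a := Nat.one_lt_pow ha.ne' hp.one_lt
      have h2 : 0 < q ^ b := pow_pos hq.pos b
      nlinarith
    have : Fact (1 < m) := ⟨hm1⟩
    rw [hne]
    apply hA.cancel m hm0 hlm 1
    exact hA.pair m hm0 hlm 1 one_ne_zero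
  · obtain ⟨N, hN, hlN, h⟩ := gen_main hp hq hp2 hq2 hpq ha hb hm hl hlm hH hs hne heven
    have h1 : 0 < N * m := Nat.mul_pos hN hm0
    have h2 : l.Coprime (N * m) := Nat.Coprime.mul_right hlN hlm
    exact hA.descend m N h1 h2 s (hA.gen h1 h2 h)

lemma tate_add {s t : Multiset (ZMod m)} (hs : IsTate l m s) (ht : IsTate l m t) :
    IsTate l m (s + t) := by
  obtain ⟨h1, h2, h3, h4⟩ := hs
  obtain ⟨k1, k2, k3, k4⟩ := ht
  refine ⟨?_, ?_, ?_, fun u => ?_⟩
  · rw [Multiset.mem_add]
    exact fun h => h.elim h1 k1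
  · rw [Multiset.card_add]; exact h2.add k2
  · rw [Multiset.sum_add, h3, k3, add_zero]
  · have e1 := h4 u
    have e2 := k4 u
    simp only [Multiset.map_add, Multiset.sum_add, Finset.sum_add_distrib, mul_add,
      Multiset.card_add]
    rw [e1, e2]

theorem odd_mem (hp : p.Prime) (hq : q.Prime) (hp2 : p ≠ 2) (hq2 : q ≠ 2) (hpq : p ≠ q)
    (ha : 0 < a) (hb : 0 < b) (hm : m = p ^ a * q ^ b) (hl : l.Prime)
    (hlm : l.Coprime m) (hH : Hyp p q a b l) {A : (m : ℕ) → Multiset (ZMod m) → Prop}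
    (hA : Adm l A) {t s : Multiset (ZMod m)} (ht : IsTate l m t) (hodd : ¬ Even (cnt q b t))
    (htA : A m t) (hs : IsTate l m s) : A m s := by
  by_cases hev : Even (cnt q b s)
  · exact even_mem hp hq hp2 hq2 hpq ha hb hm hl hlm hH hA hs hev
  have hm0 : 0 < m := by rw [hm]; have := hp.pos; have := hq.pos; positivity
  have : NeZero m := ⟨hm0.ne'⟩
  have hn : IsTate l m (t.map fun a => -a) := ht.neg hlm
  have hc : cnt q b (t.map fun a => -a) = cnt q b t := by
    unfold cnt
    rw [Multiset.countP_map, ← Multiset.countP_eq_card_filter]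
    apply Multiset.countP_congr rfl
    intro x _
    simp
  have h1 : A m (t.map (fun a => -a) + s) := by
    apply even_mem hp hq hp2 hq2 hpq ha hb hm hl hlm hH hA (tate_add hn hs)
    have : cnt q b (t.map (fun a => -a) + s) = cnt q b t + cnt q b s := by
      rw [← hc]; unfold cnt; rw [Multiset.countP_add]
    rw [this, Nat.even_add]
    exact ⟨fun h => absurd h hodd, fun h => absurd h hev⟩
  apply hA.cancel_all hm0 hlm t
  rw [add_assoc]
  exact hA.join m hm0 hlm _ _ htA h1

/-- the Gauss sum equation -/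
theorem ff (slope : NS.S_Slope) (par : NS.S_Par)
    (hp : p.Prime) (hq : q.Prime) (hp2 : p ≠ 2) (hq2 : q ≠ 2) (hpq : p ≠ q)
    (ha : 0 < a) (hb : 0 < b) (hm : m = p ^ a * q ^ b) (hl : l.Prime)
    (hlm : l.Coprime m) (hH : Hyp p q a b l) {k : ℕ} (hk : Odd k)
    {F : Type} [Field F] [Fintype F] (hF : Fintype.card F = l ^ (orderOf (l : ZMod m) * k))
    {χ : MulChar F ℂ} {ψ : AddChar F ℂ} (hχ : orderOf χ = m) (hψ : ψ ≠ 1)
    {s : Multiset (ZMod m × F)} (h0 : ∀ z ∈ s, z.1 ≠ 0 ∧ z.2 ≠ 0)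
    (hev : Even (Multiset.card s)) (hsum : (s.map Prod.fst).sum = 0)
    (heq : (s.map fun z => gaussSum (χ ^ z.1.val) ψ).prod =
      (Fintype.card F : ℂ) ^ (Multiset.card s / 2) * (s.map fun z => (χ ^ z.1.val) z.2).prod) :
    IsTate l m (s.map Prod.fst) ∧ Even (cnt q b (s.map Prod.fst)) := by
  have hm0 : 0 < m := by rw [hm]; have := hp.pos; have := hq.pos; positivity
  have : NeZero m := ⟨hm0.ne'⟩
  have : Fact l.Prime := ⟨hl⟩
  have hm2 : 2 ≤ m := by
    rw [hm]
    have h1 : 1 < p ^ a := Nat.one_lt_pow ha.ne' hp.one_lt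
    have h2 : 0 < q ^ b := pow_pos hq.pos b
    nlinarith
  have h00 : (0 : ZMod m) ∉ s.map Prod.fst := by
    intro h
    obtain ⟨z, hz, hz0⟩ := Multiset.mem_map.mp h
    exact (h0 z hz).1 hz0
  have hχm : χ ^ m = 1 := by rw [← hχ]; exact pow_orderOf_eq_one χ
  have : CharP F l := charP_of_card_eq_prime_pow hF
  obtain ⟨c, hc⟩ := hev
  refine ⟨⟨h00, by rw [Multiset.card_map]; exact ⟨c, hc⟩, hsum, ?_⟩, ?_⟩
  · apply slope l m m hm2 hm0 F χ ψ hχ hψ _ h00
    rw [Multiset.map_map, Multiset.card_map]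
    simp only [Function.comp_def]
    rw [heq, mul_pow, mul_comm 2 m, pow_mul (Multiset.prod _) m 2,
      prod_root hχm fun z hz => (h0 z hz).2, one_pow, mul_one, ← pow_mul]
    congr 1
    have : Multiset.card s / 2 = c := by omega
    rw [this, hc]; ring
  · obtain ⟨n, hn1, hn2, hn3⟩ := half_order hp hq hp2 ha hpq hm hlm hH hk
    have d1 : p ^ a ∣ l ^ n + 1 := by
      rw [← ZMod.natCast_eq_zero_iff]
      push_cast
      rw [hn2]; ring
    have d2 : q ∣ l ^ n - 1 := by
      apply (dvd_pow_self q hb.ne').trans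
      rw [← Nat.modEq_iff_dvd' (Nat.one_le_pow _ _ hl.pos)]
      symm
      rw [← ZMod.natCast_eq_natCast_iff]
      push_cast
      exact hn3
    subst hm
    have h := par p q a b l n hp hq hp2 hq2 hpq ha hb d1 d2 F (by rw [hF, hn1]) χ ψ hχ hψ s
      (fun z hz => (h0 z hz).2) heq
    have e : cnt q b (s.map Prod.fst) = s.countP fun z => p ^ a ∣ z.1.val := by
      unfold cnt
      rw [Multiset.countP_map, ← Multiset.countP_eq_card_filter]
      apply Multiset.countP_congr rfl
      intro z _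
      rw [eq_iff_iff]
      exact mul_eq_zero_iff rfl (pow_pos hq.pos b) z.1
    rw [e]
    exact h

end

end Pool.Agent.H180.MO
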