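import Pool.Agent.H180.MO.Main
import Pool.Agent.H180.NS.Stm

/-!
# From the Gauss sum equation to Tate characters with the parity condition
-/

set_option autoImplicit false

namespace Pool.Agent.H180.MO

open Finset Pool.Agent.H916R2 Pool.Agent.H916T Pool.Agent.H916U

section

variable {p q a b l m : ℕ}

lemma lift_pow {r c x y : ℕ} {e : ℤ} (hc : 0 < c) (h : ((x : ℤ) ^ y : ZMod r) = (e : ZMod r)) :
    ((x : ℤ) ^ (y * r ^ (c - 1)) : ZMod (r ^ c)) = (e : ZMod (r ^ c)) ^ (r ^ (c - 1)) := by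
  have h1 : (r : ℤ) ∣ (x : ℤ) ^ y - e := by
    rw [← ZMod.intCast_zmod_eq_zero_iff_dvd]
    push_cast at h ⊢
    rw [h, sub_self]
  have h2 := dvd_sub_pow_of_dvd_sub (p := r) h1 (c - 1)
  have h3 : c - 1 + 1 = c := by omega
  rw [h3] at h2
  have h4 : (((((x : ℤ) ^ y) ^ r ^ (c - 1) - e ^ r ^ (c - 1) : ℤ)) : ZMod (r ^ c)) = 0 := by
    rw [ZMod.intCast_zmod_eq_zero_iff_dvd]
    exact_mod_cast h2
  push_cast at h4
  rw [pow_mul]
  push_cast
  exact sub_eq_zero.mp h4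

/-- the hypotheses from the residues modulo `p` and `q` -/
theorem hyp_of (hp : p.Prime) (hq : q.Prime) (hp2 : p ≠ 2) (hq2 : q ≠ 2)
    (ha : 0 < a) (hb : 0 < b) (h1 : ∃ j : ℕ, (l : ZMod p) ^ j = -1)
    (h2 : Odd (orderOf (l : ZMod q))) (h3 : ∃ i : ℕ, (p : ZMod q) ^ i = -1) : Hyp p q a b l := by
  have hpo : Odd (p ^ (a - 1)) := (hp.odd_of_ne_two hp2).pow
  have hqo : Odd (q ^ (b - 1)) := (hq.odd_of_ne_two hq2).pow
  refine ⟨?_, ?_, ?_⟩
  · obtain ⟨j, hj⟩ := h1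
    have h := lift_pow (r := p) (c := a) (x := l) (y := j) (e := -1) ha (by push_cast; exact hj)
    push_cast at h
    rw [hpo.neg_one_pow] at h
    exact ⟨_, h⟩
  · have h := lift_pow (r := q) (c := b) (x := l) (y := orderOf (l : ZMod q)) (e := 1) hb
      (by push_cast; exact pow_orderOf_eq_one _)
    push_cast at h
    rw [one_pow] at h
    exact Odd.of_dvd_nat (h2.mul hqo) (orderOf_dvd_of_pow_eq_one h)
  · obtain ⟨i, hi⟩ := h3
    have h := lift_pow (r := q) (c := b) (x := p) (y := i) (e := -1) hb (by push_cast; exact hi)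
    push_cast at h
    rw [hqo.neg_one_pow] at h
    exact ⟨_, 0, by rw [h, pow_zero, mul_one]⟩

/-- `l` is prime to `m` -/
theorem coprime_m (hp : p.Prime) (hq : q.Prime) (hl : l.Prime) (hp2 : p ≠ 2)
    (hm : m = p ^ a * q ^ b) (h1 : ∃ j : ℕ, (l : ZMod p) ^ j = -1)
    (h2 : Odd (orderOf (l : ZMod q))) : l.Coprime m := by
  have h3 : l ≠ p := by
    rintro rfl
    obtain ⟨j, hj⟩ := h1
    have : Fact l.Prime := ⟨hp⟩
    rcases Nat.eq_zero_or_pos j with rfl | hj0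
    · rw [pow_zero] at hj
      have h4 : ((2 : ℕ) : ZMod l) = 0 := by push_cast; linear_combination hj
      rw [ZMod.natCast_eq_zero_iff] at h4
      exact hp2 ((Nat.prime_dvd_prime_iff_eq hp Nat.prime_two).mp h4)
    · rw [ZMod.natCast_self, zero_pow hj0.ne'] at hj
      exact one_ne_zero (neg_eq_zero.mp hj.symm)
  have h4 : l ≠ q := by
    rintro rfl
    have : Fact l.Prime := ⟨hq⟩
    have h5 : orderOf ((l : ℕ) : ZMod l) = 0 := by
      rw [orderOf_eq_zero_iff', ZMod.natCast_self]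
      intro n hn
      rw [zero_pow hn.ne']
      exact zero_ne_one
    rw [h5] at h2
    exact absurd h2 (by decide)
  rw [hm]
  exact Nat.Coprime.mul_right (Nat.Coprime.pow_right a ((Nat.coprime_primes hl hp).mpr h3))
    (Nat.Coprime.pow_right b ((Nat.coprime_primes hl hq).mpr h4))

/-- the half order -/
theorem half_order (hp : p.Prime) (hq : q.Prime) (hp2 : p ≠ 2) (ha : 0 < a) (hpq : p ≠ q)
    (hm : m = p ^ a * q ^ b) (hl : l.Coprime m) (hH : Hyp p q a b l) {k : ℕ} (hk : Odd k) :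
    ∃ n : ℕ, orderOf (l : ZMod m) * k = 2 * n ∧ (l : ZMod (p ^ a)) ^ n = -1 ∧
      (l : ZMod (q ^ b)) ^ n = 1 := by
  have hm0 : 0 < m := by rw [hm]; have := hp.pos; have := hq.pos; positivity
  have : NeZero m := ⟨hm0.ne'⟩
  have hpm : p ^ a ∣ m := by rw [hm]; exact Dvd.intro _ rfl
  have hqm : q ^ b ∣ m := by rw [hm]; exact Dvd.intro_left _ rfl
  obtain ⟨i, hi1, hi2⟩ := exists_sigma hH
  have hord := pow_orderOf_eq_one (l : ZMod m)
  have e1 : (l : ZMod (p ^ a)) ^ orderOf (l : ZMod m) = 1 := by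
    have := congrArg (ZMod.castHom hpm (ZMod (p ^ a))) hord
    rwa [map_pow, map_natCast, map_one] at this
  have e2 : (l : ZMod (q ^ b)) ^ orderOf (l : ZMod m) = 1 := by
    have := congrArg (ZMod.castHom hqm (ZMod (q ^ b))) hord
    rwa [map_pow, map_natCast, map_one] at this
  have hne : (1 : ZMod (p ^ a)) ≠ -1 := by
    intro h
    have h4 : ((2 : ℕ) : ZMod (p ^ a)) = 0 := by push_cast; linear_combination h
    rw [ZMod.natCast_eq_zero_iff] at h4
    exact hp2 ((Nat.prime_dvd_prime_iff_eq hp Nat.prime_two).mp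
      ((dvd_pow_self p ha.ne').trans h4))
  -- `l ^ (2 i) = 1` modulo `m`
  have h2i : (l : ZMod m) ^ (2 * i) = 1 := by
    have d1 : ((p ^ a : ℕ) : ℤ) ∣ (l : ℤ) ^ (2 * i) - 1 := by
      rw [← ZMod.intCast_zmod_eq_zero_iff_dvd]
      push_cast
      rw [mul_comm, pow_mul, hi1]; ring
    have d2 : ((q ^ b : ℕ) : ℤ) ∣ (l : ℤ) ^ (2 * i) - 1 := by
      rw [← ZMod.intCast_zmod_eq_zero_iff_dvd]
      push_cast
      rw [mul_comm, pow_mul, hi2]; ring
    have d3 : ((m : ℕ) : ℤ) ∣ (l : ℤ) ^ (2 * i) - 1 := by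
      rw [hm, Nat.cast_mul]
      exact IsCoprime.mul_dvd (Nat.isCoprime_iff_coprime.mpr (coprime_uv hp hq hpq)) d1 d2
    rw [← ZMod.intCast_zmod_eq_zero_iff_dvd] at d3
    push_cast at d3
    exact sub_eq_zero.mp d3
  obtain ⟨w, hw⟩ := orderOf_dvd_of_pow_eq_one h2i
  have hwo : Odd w := by
    rw [← Nat.not_even_iff_odd]
    rintro ⟨w', hw'⟩
    have h5 : i = orderOf (l : ZMod m) * w' := by
      rw [hw'] at hw
      have : 2 * i = 2 * (orderOf (l : ZMod m) * w') := by rw [hw]; ring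
      omega
    apply hne
    rw [← hi1, h5, pow_mul, e1, one_pow]
  have hev : 2 ∣ orderOf (l : ZMod m) := by
    have h6 : 2 ∣ orderOf (l : ZMod m) * w := by rw [← hw]; exact Dvd.intro _ rfl
    exact (Nat.prime_two.dvd_mul.mp h6).resolve_right hwo.not_two_dvd_nat
  obtain ⟨n0, hn0⟩ := hev
  have hin : i = n0 * w := by
    rw [hn0] at hw
    have : 2 * i = 2 * (n0 * w) := by rw [hw]; ring
    omega
  obtain ⟨w', hw'⟩ := hwo
  obtain ⟨k', hk'⟩ := hk
  have e : i = orderOf (l : ZMod m) * w' + n0 := by rw [hin, hn0, hw']; ring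
  have f1 : (l : ZMod (p ^ a)) ^ n0 = -1 := by
    rw [e, pow_add, pow_mul, e1, one_pow, one_mul] at hi1
    exact hi1
  have f2 : (l : ZMod (q ^ b)) ^ n0 = 1 := by
    rw [e, pow_add, pow_mul, e2, one_pow, one_mul] at hi2
    exact hi2
  refine ⟨n0 * k, by rw [hn0]; ring, ?_, ?_⟩
  · rw [pow_mul, f1]
    exact Odd.neg_one_pow ⟨k', hk'⟩
  · rw [pow_mul, f2, one_pow]

lemma prod_root {F : Type} [Field F] [Fintype F] {χ : MulChar F ℂ} (hχ : χ ^ m = 1)
    {s : Multiset (ZMod m × F)} (hs : ∀ z ∈ s, z.2 ≠ 0) :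
    (s.map fun z => (χ ^ z.1.val) z.2).prod ^ m = 1 := by
  rw [← Multiset.prod_map_pow]
  apply Multiset.prod_eq_one
  intro x hx
  obtain ⟨z, hz, rfl⟩ := Multiset.mem_map.mp hx
  obtain ⟨u, hu⟩ : IsUnit z.2 := (hs z hz).isUnit
  rw [← hu, MulChar.pow_apply_coe, ← pow_mul, mul_comm, pow_mul, ← MulChar.pow_apply_coe, hχ,
    MulChar.one_apply_coe, one_pow]

end

end Pool.Agent.H180.MO
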