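import Pool.Agent.H180.MO.Core2
import Pool.Agent.H916Z.Final
import Pool.Agent.H916Z.CharTwo

/-!
# Tate characters with an even number of entries of `q`-power order are generated
-/

set_option autoImplicit false

namespace Pool.Agent.H180.MO

open Finset Pool.Agent.H916R2 Pool.Agent.H916T Pool.Agent.H916U

section

variable {p q a b l m : ℕ}

lemma addOrderOf_dvd_iff (k : ℕ) (x : ZMod m) :
    addOrderOf x ∣ k ↔ ((k : ℕ) : ZMod m) * x = 0 := by
  rw [addOrderOf_dvd_iff_nsmul_eq_zero, nsmul_eq_mul]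

lemma addOrderOf_dvd_m (x : ZMod m) : addOrderOf x ∣ m := by
  rw [addOrderOf_dvd_iff]; simp

/-- elements of `q`-power order -/
lemma order_y [NeZero m] (hp : p.Prime) (hq : q.Prime) (hpq : p ≠ q) (hm : m = p ^ a * q ^ b)
    (x : ZMod m) : ¬ p ∣ addOrderOf x ↔ ((q ^ b : ℕ) : ZMod m) * x = 0 := by
  rw [← addOrderOf_dvd_iff]
  constructor
  · intro h
    have h1 : addOrderOf x ∣ p ^ a * q ^ b := by rw [← hm]; exact addOrderOf_dvd_m x
    exact Nat.Coprime.dvd_of_dvd_mul_left
      (Nat.Coprime.pow_right a ((hp.coprime_iff_not_dvd).mpr h).symm) h1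
  · intro h h1
    exact hpq ((Nat.prime_dvd_prime_iff_eq hp hq).mp (hp.dvd_of_dvd_pow (h1.trans h)))

lemma order_x [NeZero m] (hp : p.Prime) (hq : q.Prime) (hpq : p ≠ q) (hm : m = p ^ a * q ^ b)
    (x : ZMod m) : ¬ q ∣ addOrderOf x ↔ ((p ^ a : ℕ) : ZMod m) * x = 0 :=
  order_y (a := b) (b := a) hq hp hpq.symm (by rw [hm, mul_comm]) x

lemma supp_sub [NeZero m] (hp : p.Prime) (hq : q.Prime) (hm : m = p ^ a * q ^ b) (x : ZMod m) :
    (addOrderOf x).primeFactors ⊆ {p, q} := by
  intro r hr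
  have h1 := Nat.prime_of_mem_primeFactors hr
  have h2 : r ∣ p ^ a * q ^ b := by
    rw [← hm]; exact (Nat.dvd_of_mem_primeFactors hr).trans (addOrderOf_dvd_m x)
  rw [mem_insert, mem_singleton]
  rcases (h1.dvd_mul).mp h2 with h | h
  · exact Or.inl ((Nat.prime_dvd_prime_iff_eq h1 hp).mp (h1.dvd_of_dvd_pow h))
  · exact Or.inr ((Nat.prime_dvd_prime_iff_eq h1 hq).mp (h1.dvd_of_dvd_pow h))

lemma mem_supp [NeZero m] {r : ℕ} (hr : r.Prime) (x : ZMod m) :
    r ∈ (addOrderOf x).primeFactors ↔ r ∣ addOrderOf x := by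
  rw [Nat.mem_primeFactors]
  exact ⟨fun h => h.2.1, fun h => ⟨hr, h, (addOrderOf_pos x).ne'⟩⟩

/-- the parities of the numbers of the entries with a given support -/
theorem parities (hp : p.Prime) (hq : q.Prime) (hp2 : p ≠ 2) (hq2 : q ≠ 2) (hpq : p ≠ q)
    [NeZero m] (ha : 0 < a) (hb : 0 < b) (hm : m = p ^ a * q ^ b) (hl : l.Coprime m)
    (hH : Hyp p q a b l) {s : Multiset (ZMod m)} (hs : IsTate l m s)
    (heven : Even (s.countP fun x => ((q ^ b : ℕ) : ZMod m) * x = 0)) (S : Finset ℕ)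
    (hS : S.Nonempty) : Even (s.countP (H916Q.Supp S)) := by
  classical
  have hmix := mixed_even hp hq hp2 hq2 hpq ha hb hm hl hH hs heven
  have hx0 : ∀ x ∈ s, x ≠ 0 := fun x hx h => hs.1 (h ▸ hx)
  -- the types
  have key : ∀ x : ZMod m, x ≠ 0 →
      ((((p ^ a : ℕ) : ZMod m) * x = 0 ∧ ¬ ((q ^ b : ℕ) : ZMod m) * x = 0 ∧
          (addOrderOf x).primeFactors = {p}) ∨
        (¬ ((p ^ a : ℕ) : ZMod m) * x = 0 ∧ ((q ^ b : ℕ) : ZMod m) * x = 0 ∧
          (addOrderOf x).primeFactors = {q}) ∨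
        (¬ ((p ^ a : ℕ) : ZMod m) * x = 0 ∧ ¬ ((q ^ b : ℕ) : ZMod m) * x = 0 ∧
          (addOrderOf x).primeFactors = {p, q})) := by
    intro x hx
    have hsub := supp_sub hp hq hm x
    have h1 := mem_supp hp x
    have h2 := mem_supp hq x
    have h3 := order_y hp hq hpq hm x
    have h4 := order_x hp hq hpq hm x
    by_cases hA : ((p ^ a : ℕ) : ZMod m) * x = 0
    · by_cases hB : ((q ^ b : ℕ) : ZMod m) * x = 0
      · exact absurd (zero_of hp hq hpq hA hB) hx
      · refine Or.inl ⟨hA, hB, ?_⟩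
        ext r
        rw [mem_singleton]
        constructor
        · intro hr
          rcases mem_insert.mp (hsub hr) with h | h
          · exact h
          · rw [mem_singleton.mp h] at hr
            exact absurd (h2.mp hr) (h4.mpr hA)
        · rintro rfl
          exact h1.mpr (not_not.mp fun h => hB (h3.mp h))
    · by_cases hB : ((q ^ b : ℕ) : ZMod m) * x = 0
      · refine Or.inr (Or.inl ⟨hA, hB, ?_⟩)
        ext r
        rw [mem_singleton]
        constructor
        · intro hr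
          rcases mem_insert.mp (hsub hr) with h | h
          · rw [h] at hr
            exact absurd (h1.mp hr) (h3.mpr hB)
          · exact mem_singleton.mp h
        · rintro rfl
          exact h2.mpr (not_not.mp fun h => hA (h4.mp h))
      · refine Or.inr (Or.inr ⟨hA, hB, Subset.antisymm hsub ?_⟩)
        intro r hr
        rcases mem_insert.mp hr with rfl | h
        · exact h1.mpr (not_not.mp fun h => hB (h3.mp h))
        · rw [mem_singleton.mp h]
          exact h2.mpr (not_not.mp fun h => hA (h4.mp h))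
  have hne1 : ({p} : Finset ℕ) ≠ {q} := fun h => hpq (singleton_injective h)
  have hne2 : ({p} : Finset ℕ) ≠ {p, q} := by
    intro h
    have : q ∈ ({p} : Finset ℕ) := by rw [h]; simp
    exact hpq (mem_singleton.mp this).symm
  have hne3 : ({q} : Finset ℕ) ≠ {p, q} := by
    intro h
    have : p ∈ ({q} : Finset ℕ) := by rw [h]; simp
    exact hpq (mem_singleton.mp this)
  have c1 : s.countP (H916Q.Supp {p}) = s.countP fun x => ((p ^ a : ℕ) : ZMod m) * x = 0 := by
    apply Multiset.countP_congr rfl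
    intro x hx
    rw [eq_iff_iff]
    unfold H916Q.Supp
    rcases key x (hx0 x hx) with ⟨h1, h2, h3⟩ | ⟨h1, h2, h3⟩ | ⟨h1, h2, h3⟩
    · exact ⟨fun _ => h1, fun _ => h3⟩
    · exact ⟨fun h => absurd (h.symm.trans h3) hne1, fun h => absurd h h1⟩
    · exact ⟨fun h => absurd (h.symm.trans h3) hne2, fun h => absurd h h1⟩
  have c2 : s.countP (H916Q.Supp {q}) = s.countP fun x => ((q ^ b : ℕ) : ZMod m) * x = 0 := by
    apply Multiset.countP_congr rfl
    intro x hx
    rw [eq_iff_iff]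
    unfold H916Q.Supp
    rcases key x (hx0 x hx) with ⟨h1, h2, h3⟩ | ⟨h1, h2, h3⟩ | ⟨h1, h2, h3⟩
    · exact ⟨fun h => absurd (h3.symm.trans h) hne1, fun h => absurd h h2⟩
    · exact ⟨fun _ => h2, fun _ => h3⟩
    · exact ⟨fun h => absurd (h.symm.trans h3) hne3, fun h => absurd h h2⟩
  have c3 : s.countP (H916Q.Supp {p, q}) = mixed (p ^ a) (q ^ b) s := by
    unfold mixed
    apply Multiset.countP_congr rfl
    intro x hx
    rw [eq_iff_iff]
    unfold H916Q.Supp
    rcases key x (hx0 x hx) with ⟨h1, h2, h3⟩ | ⟨h1, h2, h3⟩ | ⟨h1, h2, h3⟩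
    · exact ⟨fun h => absurd (h3.symm.trans h) hne2, fun h => absurd h1 h.1⟩
    · exact ⟨fun h => absurd (h3.symm.trans h) hne3, fun h => absurd h2 h.2⟩
    · exact ⟨fun _ => ⟨h1, h2⟩, fun _ => h3⟩
  have c4 : Even (s.countP fun x => ((p ^ a : ℕ) : ZMod m) * x = 0) := by
    have e1 := Multiset.card_eq_countP_add_countP (fun x : ZMod m => ((p ^ a : ℕ) : ZMod m) * x = 0) s
    have e2 : s.countP (fun x => ¬ ((p ^ a : ℕ) : ZMod m) * x = 0) =
        s.countP (fun x => ((q ^ b : ℕ) : ZMod m) * x = 0) + mixed (p ^ a) (q ^ b) s := by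
      unfold mixed
      clear e1 c1 c2 c3 hmix heven hs
      induction s using Multiset.induction_on with
      | empty => simp
      | cons x s ih =>
        rw [Multiset.countP_cons, Multiset.countP_cons, Multiset.countP_cons,
          ih fun y hy => hx0 y (Multiset.mem_cons_of_mem hy)]
        rcases key x (hx0 x (Multiset.mem_cons_self _ _)) with
          ⟨h1, h2, h3⟩ | ⟨h1, h2, h3⟩ | ⟨h1, h2, h3⟩
        · rw [if_neg (not_not.mpr h1), if_neg h2, if_neg fun h => h.1 h1]
          omega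
        · rw [if_pos h1, if_pos h2, if_neg fun h => h.2 h2]
          omega
        · rw [if_pos h1, if_neg h2, if_pos ⟨h1, h2⟩]
          omega
    have e3 := hs.2.1
    rw [e1, Nat.even_add] at e3
    rw [e3, e2]
    exact heven.add hmix
  by_cases hS1 : S = {p}
  · rw [hS1, c1]; exact c4
  by_cases hS2 : S = {q}
  · rw [hS2, c2]; exact heven
  by_cases hS3 : S = {p, q}
  · rw [hS3, c3]; exact hmix
  have h0 : s.countP (H916Q.Supp S) = 0 := by
    rw [Multiset.countP_eq_zero]
    intro x hx h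
    unfold H916Q.Supp at h
    rcases key x (hx0 x hx) with ⟨_, _, h3⟩ | ⟨_, _, h3⟩ | ⟨_, _, h3⟩
    · exact hS1 (h.symm.trans h3)
    · exact hS2 (h.symm.trans h3)
    · exact hS3 (h.symm.trans h3)
  rw [h0]; exact Even.zero

/-- After raising the degree, the Tate characters of degree `m = p ^ a * q ^ b` with an even number of
entries killed by `q ^ b` are generated by those of surfaces and the standard ones. -/
theorem gen_main (hp : p.Prime) (hq : q.Prime) (hp2 : p ≠ 2) (hq2 : q ≠ 2) (hpq : p ≠ q)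
    (ha : 0 < a) (hb : 0 < b) (hm : m = p ^ a * q ^ b) (hl : l.Prime)
    (hlm : l.Coprime m) (hH : Hyp p q a b l) {s : Multiset (ZMod m)} (hs : IsTate l m s)
    (hne : s ≠ 0) (heven : Even (s.countP fun x => ((q ^ b : ℕ) : ZMod m) * x = 0)) :
    ∃ N : ℕ, 0 < N ∧ l.Coprime N ∧
      H916T.Generated (N * m) (H916Z.ZBase l (N * m))
        (s.map (iota N : ZMod m → ZMod (N * m))) := by
  have hm0 : 0 < m := by rw [hm]; have := hp.pos; have := hq.pos; positivity
  have hmz : NeZero m := ⟨hm0.ne'⟩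
  have hm4 : ¬ 4 ∣ m := fun h => odd_m hp hq hp2 hq2 hm ((by norm_num : (2 : ℕ) ∣ 4).trans h)
  obtain ⟨N, hN, hlN, H⟩ := H916Z.parity_main hl (H916Z.hu_all hl) (H916Z.hb_all hl) hm0 hm4 hlm
    hs hne (H916Q.link_parity hs.1 hs.2.1
      (fun S hS _ => parities hp hq hp2 hq2 hpq ha hb hm hlm hH hs heven S hS))
  exact ⟨N, hN, hlN, H _ rfl⟩

end

end Pool.Agent.H180.MO
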